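import Pool.Agent.Helper28.OHS.Goals

/-!
# Packet OHS-LOP: a computation without repetitions
-/

namespace Pool.Agent.Helper49.OHS

open Pool.Agent.Helper65.LinSpace Pool.Agent.Helper78.Mpc Pool.Agent.Helper28.Ram Finset
open Pool.Agent.Helper65.OH (OneHead Conf co)
open Pool.Agent.Helper28.OHS

theorem num_lt (w : List Bool) : num w < 2 ^ (w.length + 1) := by
  induction w with
  | nil => simp [num]
  | cons b w ih =>
    have h1 : b.toNat ≤ 1 := by cases b <;> simp
    simp only [num, List.length_cons]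
    rw [pow_succ 2 (w.length + 1)]
    omega

theorem co_lt_box {D : ℕ} {b : ℕ} {p : Fin D → ℤ} (hp : Box b p) {k : ℕ} (hk : k < D) :
    co (b + 1) p k < 2 ^ (b + 1) := by
  unfold co
  rw [dif_pos hk]
  have h1 := hp ⟨k, hk⟩
  have e : ((2 : ℤ) ^ (b + 1 - 1)) = 2 ^ b := by simp
  have e2 : ((2 : ℤ) ^ (b + 1)) = 2 * 2 ^ b := by ring
  rw [e]
  zify
  rw [e2, Int.toNat_of_nonneg (by linarith [h1.1])]
  linarith [h1.2]

theorem co_inj_box {D : ℕ} {b : ℕ} {p p' : Fin D → ℤ} (hp : Box b p) (hp' : Box b p')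
    (h : ∀ k < D, co (b + 1) p k = co (b + 1) p' k) : p = p' := by
  funext k
  have h1 := h k k.2
  unfold co at h1
  rw [dif_pos k.2, dif_pos k.2] at h1
  have h2 := hp k
  have h3 := hp' k
  have e : ((2 : ℤ) ^ (b + 1 - 1)) = 2 ^ b := by simp
  rw [e] at h1
  have h4 : (p k + 2 ^ b).toNat = (p' k + 2 ^ b).toNat := h1
  omega

theorem lop : LOP_stmt := by
  intro D A w y r s b h x t t' hfit hbox hacc hfirst htt' ht'r hst hh
  by_contra hcon
  rw [not_le] at hcon
  classical
  set Chg : ℕ → Prop := fun u => (A.conf w y (u + 1)).M ≠ (A.conf w y u).M with hChg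
  have hnew : ∀ u, Chg u → A.New w y u := fun u hu v hv _ => ⟨u, hv, le_rfl, hu⟩
  -- an interval without changes
  obtain ⟨i, hi, hno⟩ : ∃ i ≤ x, ∀ j < 2 ^ h, ¬Chg (t + i * 2 ^ h + j) := by
    by_contra hc
    push Not at hc
    choose! g hg1 hg2 using hc
    have hfin : {u : ℕ | t ≤ u ∧ u < t' ∧ A.New w y u}.Finite :=
      (Set.finite_Iio t').subset fun u hu => hu.2.1
    have hmaps : ∀ i ∈ (Finset.range (x + 1) : Finset ℕ),
        t + i * 2 ^ h + g i ∈ hfin.toFinset := by
      intro i hi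
      rw [mem_range] at hi
      rw [Set.Finite.mem_toFinset]
      have h1 := hg1 i (by omega)
      have h2 := hg2 i (by omega)
      refine ⟨by omega, ?_, hnew _ h2⟩
      have h3 : (i + 1) * 2 ^ h ≤ (x + 1) * 2 ^ h := Nat.mul_le_mul_right _ (by omega)
      have h4 : 2 ^ h * (x + 1) = (x + 1) * 2 ^ h := by ring
      have h5 : (i + 1) * 2 ^ h = i * 2 ^ h + 2 ^ h := by ring
      omega
    have hinj : Set.InjOn (fun i => t + i * 2 ^ h + g i) (Finset.range (x + 1) : Finset ℕ) := by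
      intro i hi j hj hij
      have hi' : i ≤ x := by
        have := mem_range.1 (mem_coe.1 hi)
        omega
      have hj' : j ≤ x := by
        have := mem_range.1 (mem_coe.1 hj)
        omega
      have e1 := hg1 i hi'
      have e2 := hg1 j hj'
      have h0 : 0 < 2 ^ h := by positivity
      have hij2 : g i + i * 2 ^ h = g j + j * 2 ^ h := by
        have : t + i * 2 ^ h + g i = t + j * 2 ^ h + g j := hij
        omega
      have d1 : (g i + i * 2 ^ h) / 2 ^ h = i := by
        rw [Nat.add_mul_div_right _ _ h0, Nat.div_eq_of_lt e1, zero_add]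
      have d2 : (g j + j * 2 ^ h) / 2 ^ h = j := by
        rw [Nat.add_mul_div_right _ _ h0, Nat.div_eq_of_lt e2, zero_add]
      rw [← d1, ← d2, hij2]
    have hcard := card_le_card_of_injOn _ hmaps hinj
    rw [card_range] at hcard
    have : steps A w y t t' = hfin.toFinset.card := by
      unfold steps
      rw [Set.ncard_eq_toFinset_card _ hfin]
    omega
  set a := t + i * 2 ^ h with ha
  have hM : ∀ j ≤ 2 ^ h, (A.conf w y (a + j)).M = (A.conf w y a).M := by
    intro j hj
    induction j with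
    | zero => rfl
    | succ j ih =>
      have h1 := hno j (by omega)
      rw [hChg] at h1
      have h2 : (A.conf w y (a + j + 1)).M = (A.conf w y (a + j)).M := by
        by_contra hne
        exact h1 hne
      rw [← add_assoc, h2, ih (by omega)]
  have har : a + 2 ^ h ≤ r := by
    have h3 : (i + 1) * 2 ^ h ≤ (x + 1) * 2 ^ h := Nat.mul_le_mul_right _ (by omega)
    have h4 : 2 ^ h * (x + 1) = (x + 1) * 2 ^ h := by ring
    have h5 : (i + 1) * 2 ^ h = i * 2 ^ h + 2 ^ h := by ring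
    omega
  set f : ℕ → ℕ := fun j => num (A.conf w y (a + j)).q +
    2 ^ (s + 1) * tab (2 ^ (b + 1)) D (co (b + 1) (A.conf w y (a + j)).h) with hf
  have hq : ∀ j ≤ 2 ^ h, num (A.conf w y (a + j)).q < 2 ^ (s + 1) := by
    intro j hj
    refine lt_of_lt_of_le (num_lt _) (Nat.pow_le_pow_right (by norm_num) ?_)
    have := (hfit (a + j) (by omega)).1
    omega
  have hB : ∀ j ≤ 2 ^ h, Box b (A.conf w y (a + j)).h := fun j hj => hbox _ (by omega)
  have hflt : ∀ j ∈ (Finset.range (2 ^ h + 1) : Finset ℕ), f j ∈ Finset.range (2 ^ h) := by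
    intro j hj
    rw [mem_range] at hj ⊢
    have h1 := hq j (by omega)
    have h2 : tab (2 ^ (b + 1)) D (co (b + 1) (A.conf w y (a + j)).h) < (2 ^ (b + 1)) ^ D :=
      tab_lt fun k hk => co_lt_box (hB j (by omega)) hk
    have h3 : 2 ^ (s + 1) * (2 ^ (b + 1)) ^ D ≤ 2 ^ h := by
      rw [← pow_mul, ← pow_add]
      exact Nat.pow_le_pow_right (by norm_num) (by omega)
    have h4 : 2 ^ (s + 1) * (tab (2 ^ (b + 1)) D (co (b + 1) (A.conf w y (a + j)).h) + 1) ≤
        2 ^ (s + 1) * (2 ^ (b + 1)) ^ D := Nat.mul_le_mul_left _ h2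
    rw [mul_add, mul_one] at h4
    show num (A.conf w y (a + j)).q +
      2 ^ (s + 1) * tab (2 ^ (b + 1)) D (co (b + 1) (A.conf w y (a + j)).h) < 2 ^ h
    omega
  obtain ⟨j₁, hj₁, j₂, hj₂, hne, e⟩ := exists_ne_map_eq_of_card_lt_of_maps_to
    (s := range (2 ^ h + 1)) (t := range (2 ^ h)) (f := f) (by simp) hflt
  rw [mem_range] at hj₁ hj₂
  have hconf : ∀ j₁ j₂ : ℕ, j₁ ≤ 2 ^ h → j₂ ≤ 2 ^ h → f j₁ = f j₂ →
      A.conf w y (a + j₁) = A.conf w y (a + j₂) := by
    intro j₁ j₂ h1 h2 e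
    have e1 : num (A.conf w y (a + j₁)).q +
        2 ^ (s + 1) * tab (2 ^ (b + 1)) D (co (b + 1) (A.conf w y (a + j₁)).h) =
        num (A.conf w y (a + j₂)).q +
        2 ^ (s + 1) * tab (2 ^ (b + 1)) D (co (b + 1) (A.conf w y (a + j₂)).h) := e
    have eq1 : num (A.conf w y (a + j₁)).q = num (A.conf w y (a + j₂)).q := by
      have := congrArg (· % 2 ^ (s + 1)) e1
      simpa only [Nat.add_mul_mod_self_left, Nat.mod_eq_of_lt (hq j₁ h1),
        Nat.mod_eq_of_lt (hq j₂ h2)] using this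
    have eq2 : tab (2 ^ (b + 1)) D (co (b + 1) (A.conf w y (a + j₁)).h) =
        tab (2 ^ (b + 1)) D (co (b + 1) (A.conf w y (a + j₂)).h) := by
      rw [eq1] at e1
      exact Nat.eq_of_mul_eq_mul_left (by positivity) (Nat.add_left_cancel e1)
    have eq3 : (A.conf w y (a + j₁)).h = (A.conf w y (a + j₂)).h := by
      apply co_inj_box (hB j₁ h1) (hB j₂ h2)
      intro k hk
      have d1 := dig_tab (q := 2 ^ (b + 1)) (m := D)
        (d := co (b + 1) (A.conf w y (a + j₁)).h) (fun k hk => co_lt_box (hB j₁ h1) hk) hk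
      have d2 := dig_tab (q := 2 ^ (b + 1)) (m := D)
        (d := co (b + 1) (A.conf w y (a + j₂)).h) (fun k hk => co_lt_box (hB j₂ h2) hk) hk
      rw [← d1, ← d2, eq2]
    have eq4 : (A.conf w y (a + j₁)).q = (A.conf w y (a + j₂)).q := num_injective eq1
    have eq5 : (A.conf w y (a + j₁)).M = (A.conf w y (a + j₂)).M := by
      rw [hM j₁ h1, hM j₂ h2]
    cases h1' : A.conf w y (a + j₁)
    cases h2' : A.conf w y (a + j₂)
    rw [h1', h2'] at eq3 eq4 eq5
    simp only at eq3 eq4 eq5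
    subst eq3 eq4 eq5
    rfl
  have hshift : ∀ u v : ℕ, A.conf w y u = A.conf w y v → ∀ m,
      A.conf w y (u + m) = A.conf w y (v + m) := by
    intro u v huv m
    induction m with
    | zero => exact huv
    | succ m ih =>
      rw [← add_assoc, ← add_assoc]
      show A.step w y (A.conf w y (u + m)) = A.step w y (A.conf w y (v + m))
      rw [ih]
  have key : ∀ j₁ j₂ : ℕ, j₁ < j₂ → j₂ ≤ 2 ^ h → f j₁ = f j₂ → False := by
    intro j₁ j₂ hlt hle e
    have h1 := hshift _ _ (hconf j₁ j₂ (by omega) hle e) (r - (a + j₂))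
    rw [show a + j₂ + (r - (a + j₂)) = r by omega] at h1
    apply hfirst (a + j₁ + (r - (a + j₂))) (by omega)
    unfold OneHead.AcceptsAt
    rw [h1]
    exact hacc
  rcases Nat.lt_or_gt_of_ne hne with h1 | h1
  · exact key j₁ j₂ h1 (by omega) e
  · exact key j₂ j₁ h1 (by omega) e.symm

end Pool.Agent.Helper49.OHS
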